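import Pool.Agent.T6.H59.CL.Fin

/-! MP_9c5a5c_co: balls of radius two in the parts contain more than half of the part. -/

set_option autoImplicit false

namespace H59.CL

open Finset R100DC

variable {V : Type} [Fintype V] [DecidableEq V]

omit [Fintype V] in
lemma ball (G : SimpleGraph V) {S : Finset V} (hT : Tight G S) (x : (S : Set V)) :
    S.card < 2 * {y : (S : Set V) | (G.induce (S : Set V)).dist x y ≤ 2}.ncard := by
  classical
  by_contra hcon
  push Not at hcon
  set R : Finset V := S.filter (fun z => ∃ h : z ∈ (S : Set V),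
    (G.induce (S : Set V)).dist x ⟨z, h⟩ ≤ 2) with hR
  have hmem : ∀ z, z ∈ R ↔ z ∈ S ∧ ∃ h : z ∈ (S : Set V),
      (G.induce (S : Set V)).dist x ⟨z, h⟩ ≤ 2 := by
    intro z
    rw [hR, Finset.mem_filter]
  have himg : Subtype.val '' {y : (S : Set V) | (G.induce (S : Set V)).dist x y ≤ 2} =
      (R : Set V) := by
    ext z
    rw [Finset.mem_coe, hmem]
    constructor
    · rintro ⟨y, hy, rfl⟩
      exact ⟨y.2, y.2, hy⟩
    · rintro ⟨_, h, h'⟩
      exact ⟨⟨z, h⟩, h', rfl⟩
  have hcard : {y : (S : Set V) | (G.induce (S : Set V)).dist x y ≤ 2}.ncard = R.card := by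
    rw [← Set.ncard_image_of_injective _ Subtype.val_injective, himg, Set.ncard_coe_finset]
  rw [hcard] at hcon
  have hxR : x.1 ∈ R := by
    rw [hmem]
    refine ⟨x.2, x.2, ?_⟩
    have : (G.induce (S : Set V)).dist x x = 0 := SimpleGraph.dist_self
    show (G.induce (S : Set V)).dist x x ≤ 2
    omega
  have hRS : R ⊆ S := Finset.filter_subset _ _
  obtain ⟨u, huS, huR⟩ : ∃ u ∈ S, u ∉ R := by
    by_contra h
    push Not at h
    have h1 : S.card ≤ R.card := Finset.card_le_card h
    have h2 : 0 < S.card := Finset.card_pos.2 ⟨x.1, x.2⟩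
    omega
  refine case2 G hT huS x.2 huR hxR hRS ?_ ?_ hcon
  · intro y hy hxy
    rw [hmem]
    refine ⟨hy, hy, ?_⟩
    have e1 : (G.induce (S : Set V)).Adj x ⟨y, hy⟩ := hxy
    have := SimpleGraph.dist_le (SimpleGraph.Walk.cons e1 SimpleGraph.Walk.nil)
    simp at this
    omega
  · intro y hy hxy z hz hyz
    rw [hmem]
    refine ⟨hz, hz, ?_⟩
    have e1 : (G.induce (S : Set V)).Adj x ⟨y, hy⟩ := hxy
    have e2 : (G.induce (S : Set V)).Adj ⟨y, hy⟩ ⟨z, hz⟩ := hyz
    have := SimpleGraph.dist_le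
      (SimpleGraph.Walk.cons e1 (SimpleGraph.Walk.cons e2 SimpleGraph.Walk.nil))
    simpa using this

end H59.CL
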