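import Pool.Agent.R100.DC.F1
import Pool.Agent.R100.DC.F
import Pool.Agent.R100.DC.Fin

/-! MP_9c5a5c_co: parts of optimal partitions with the most parts have diameter at most three. -/

set_option autoImplicit false

namespace H59.CL

open Finset R100DC

variable {V : Type} [Fintype V] [DecidableEq V]

/-- ordered adjacent pairs between `X` and `Y` -/
noncomputable def DD (G : SimpleGraph V) (X Y : Finset V) : ℚ := ∑ a ∈ X, ∑ b ∈ Y, A G a b

/-- degree of `x` into `S` -/
noncomputable def dg (G : SimpleGraph V) (S : Finset V) (x : V) : ℚ := ∑ b ∈ S, A G x b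

/-- no good cut -/
def Tight (G : SimpleGraph V) (S : Finset V) : Prop :=
  ∀ B C : Finset V, B.Nonempty → C.Nonempty → Disjoint B C → B ∪ C = S →
    E2 G B / (B.card : ℚ) + E2 G C / (C.card : ℚ) < E2 G S / (S.card : ℚ)

omit [Fintype V] [DecidableEq V] in
lemma A_one (G : SimpleGraph V) {a b : V} (h : G.Adj a b) : A G a b = 1 := by
  unfold A
  exact if_pos h

omit [Fintype V] [DecidableEq V] in
lemma A_zero (G : SimpleGraph V) {a b : V} (h : ¬ G.Adj a b) : A G a b = 0 := by
  unfold A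
  exact if_neg h

omit [Fintype V] [DecidableEq V] in
lemma A_self (G : SimpleGraph V) (a : V) : A G a a = 0 := A_zero G (G.loopless.irrefl a)

omit [Fintype V] [DecidableEq V] in
lemma A_symm (G : SimpleGraph V) (a b : V) : A G a b = A G b a := by
  by_cases h : G.Adj a b
  · rw [A_one G h, A_one G h.symm]
  · rw [A_zero G h, A_zero G (fun h' => h h'.symm)]

omit [Fintype V] [DecidableEq V] in
lemma A_nonneg (G : SimpleGraph V) (a b : V) : 0 ≤ A G a b := by
  by_cases h : G.Adj a b
  · rw [A_one G h]; norm_num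
  · rw [A_zero G h]

omit [Fintype V] [DecidableEq V] in
lemma A_le_one (G : SimpleGraph V) (a b : V) : A G a b ≤ 1 := by
  by_cases h : G.Adj a b
  · rw [A_one G h]
  · rw [A_zero G h]; norm_num

omit [Fintype V] [DecidableEq V] in
lemma DD_symm (G : SimpleGraph V) (X Y : Finset V) : DD G X Y = DD G Y X := by
  unfold DD
  rw [Finset.sum_comm]
  exact Finset.sum_congr rfl fun a _ => Finset.sum_congr rfl fun b _ => A_symm G b a

omit [Fintype V] in
lemma DD_left (G : SimpleGraph V) {X Y : Finset V} (Z : Finset V) (h : Disjoint X Y) :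
    DD G (X ∪ Y) Z = DD G X Z + DD G Y Z := by
  unfold DD
  rw [Finset.sum_union h]

omit [Fintype V] in
lemma DD_right (G : SimpleGraph V) {X Y : Finset V} (Z : Finset V) (h : Disjoint X Y) :
    DD G Z (X ∪ Y) = DD G Z X + DD G Z Y := by
  rw [DD_symm, DD_left G Z h, DD_symm G X, DD_symm G Y]

omit [Fintype V] [DecidableEq V] in
lemma E2_eq (G : SimpleGraph V) (X : Finset V) : E2 G X = DD G X X := rfl

omit [Fintype V] in
lemma E2_union (G : SimpleGraph V) {X Y : Finset V} (h : Disjoint X Y) :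
    E2 G (X ∪ Y) = E2 G X + E2 G Y + 2 * DD G X Y := by
  rw [E2_eq, E2_eq, E2_eq, DD_left G _ h, DD_right G X h, DD_right G Y h, DD_symm G Y X]
  ring

omit [Fintype V] [DecidableEq V] in
lemma DD_nonneg (G : SimpleGraph V) (X Y : Finset V) : 0 ≤ DD G X Y :=
  Finset.sum_nonneg fun a _ => Finset.sum_nonneg fun b _ => A_nonneg G a b

omit [Fintype V] [DecidableEq V] in
lemma E2_nonneg (G : SimpleGraph V) (X : Finset V) : 0 ≤ E2 G X := DD_nonneg G X X

omit [Fintype V] in
/-- single vertices -/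
lemma vert (G : SimpleGraph V) {S : Finset V} (hT : Tight G S) {x y : V} (hx : x ∈ S)
    (hy : y ∈ S) (hxy : x ≠ y) : E2 G S < 2 * (S.card : ℚ) * dg G S x := by
  have hd : Disjoint ({x} : Finset V) (S.erase x) := by
    rw [Finset.disjoint_singleton_left]
    exact Finset.notMem_erase x S
  have hu : {x} ∪ S.erase x = S := by
    rw [← Finset.insert_eq, Finset.insert_erase hx]
  have hne : (S.erase x).Nonempty := ⟨y, Finset.mem_erase.2 ⟨hxy.symm, hy⟩⟩
  have h1 := hT {x} (S.erase x) ⟨x, by simp⟩ hne hd hu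
  have h2 := E2_union G hd
  rw [hu] at h2
  have h3 : E2 G {x} = 0 := by
    unfold E2
    rw [Finset.sum_singleton, Finset.sum_singleton, A_self]
  have h4 : DD G {x} (S.erase x) = dg G S x := by
    unfold DD dg
    rw [Finset.sum_singleton, ← Finset.add_sum_erase S _ hx, A_self, zero_add]
  have h5 : ((S.erase x).card : ℚ) = (S.card : ℚ) - 1 := by
    rw [Finset.card_erase_of_mem hx, Nat.cast_sub (Finset.card_pos.2 ⟨x, hx⟩), Nat.cast_one]
  have h6 : (0 : ℚ) < ((S.erase x).card : ℚ) := by exact_mod_cast Finset.card_pos.2 hne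
  rw [h3, zero_div, zero_add] at h1
  rw [h3, h4] at h2
  rw [h5] at h1 h6
  have hp : (0 : ℚ) < (S.card : ℚ) := by linarith
  rw [div_lt_div_iff₀ h6 hp] at h1
  nlinarith

omit [Fintype V] in
/-- edges -/
lemma edge (G : SimpleGraph V) {S : Finset V} (hT : Tight G S) {x y z : V} (hx : x ∈ S)
    (hy : y ∈ S) (hz : z ∈ S) (hzx : z ≠ x) (hzy : z ≠ y) (hxy : G.Adj x y) :
    (S.card : ℚ) ^ 2 + 2 * E2 G S < 2 * (S.card : ℚ) * (dg G S x + dg G S y) := by
  have hne : x ≠ y := hxy.ne
  have hsub : ({x, y} : Finset V) ⊆ S := by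
    intro w hw
    rw [Finset.mem_insert, Finset.mem_singleton] at hw
    rcases hw with rfl | rfl <;> assumption
  have hd : Disjoint ({x, y} : Finset V) (S \ {x, y}) := Finset.disjoint_sdiff
  have hu : {x, y} ∪ S \ {x, y} = S := Finset.union_sdiff_of_subset hsub
  have hneC : (S \ {x, y}).Nonempty := ⟨z, by simp [hz, hzx, hzy]⟩
  have h1 := hT {x, y} (S \ {x, y}) ⟨x, by simp⟩ hneC hd hu
  have h2 := E2_union G hd
  rw [hu] at h2
  have h3 : E2 G {x, y} = 2 := by
    unfold E2
    rw [Finset.sum_pair hne, Finset.sum_pair hne, Finset.sum_pair hne, A_self, A_self,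
      A_one G hxy, A_one G hxy.symm]
    norm_num
  have h4 : DD G {x, y} S = dg G S x + dg G S y := by
    unfold DD dg
    rw [Finset.sum_pair hne]
  have h4' : DD G {x, y} S = DD G {x, y} {x, y} + DD G {x, y} (S \ {x, y}) := by
    conv_lhs => rw [← hu]
    rw [DD_right G _ hd]
  have h3' : DD G {x, y} {x, y} = 2 := h3
  have hc2 : (({x, y} : Finset V).card : ℚ) = 2 := by
    rw [Finset.card_pair hne]; norm_num
  have h5 : ((S \ {x, y}).card : ℚ) = (S.card : ℚ) - 2 := by
    rw [Finset.cast_card_sdiff hsub, hc2]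
  have h6 : (0 : ℚ) < ((S \ {x, y}).card : ℚ) := by exact_mod_cast Finset.card_pos.2 hneC
  rw [h3, hc2] at h1
  rw [h5] at h1 h6
  have hp : (0 : ℚ) < (S.card : ℚ) := by linarith
  have h7 : DD G {x, y} (S \ {x, y}) = dg G S x + dg G S y - 2 := by linarith
  rw [h3, h7] at h2
  have h8 : E2 G (S \ {x, y}) = E2 G S - 2 * (dg G S x + dg G S y) + 2 := by linarith
  rw [h8] at h1
  set p : ℚ := (S.card : ℚ) with hpdef
  set σ : ℚ := dg G S x + dg G S y with hσ
  set E : ℚ := E2 G S with hE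
  have h9 : (E - 2 * σ + 2) / (p - 2) < E / p - 1 := by linarith
  have h10 : E / p - 1 = (E - p) / p := by field_simp
  rw [h10, div_lt_div_iff₀ h6 hp] at h9
  nlinarith

omit [Fintype V] in
/-- subsets are less dense -/
lemma sub (G : SimpleGraph V) {S R : Finset V} (hT : Tight G S) (hR : R ⊆ S) (h1 : R.Nonempty)
    (h2 : (S \ R).Nonempty) : (S.card : ℚ) * E2 G R < (R.card : ℚ) * E2 G S := by
  have h := hT R (S \ R) h1 h2 Finset.disjoint_sdiff (Finset.union_sdiff_of_subset hR)
  have h3 : 0 ≤ E2 G (S \ R) / ((S \ R).card : ℚ) := div_nonneg (E2_nonneg G _) (Nat.cast_nonneg _)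
  have hr : (0 : ℚ) < (R.card : ℚ) := by exact_mod_cast Finset.card_pos.2 h1
  have hp : (0 : ℚ) < (S.card : ℚ) := by
    have : S.Nonempty := h1.mono hR
    exact_mod_cast Finset.card_pos.2 this
  have h4 : E2 G R / (R.card : ℚ) < E2 G S / (S.card : ℚ) := by linarith
  rw [div_lt_div_iff₀ hr hp] at h4
  linarith

/-- neighbours of `x` in `S` -/
noncomputable def nb (G : SimpleGraph V) (S : Finset V) (x : V) : Finset V := by
  classical exact S.filter (fun y => G.Adj x y)

omit [Fintype V] [DecidableEq V] in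
lemma mem_nb (G : SimpleGraph V) {S : Finset V} {x y : V} :
    y ∈ nb G S x ↔ y ∈ S ∧ G.Adj x y := by
  classical
  unfold nb
  rw [Finset.mem_filter]

omit [Fintype V] [DecidableEq V] in
lemma dg_eq (G : SimpleGraph V) (S : Finset V) (x : V) : dg G S x = ((nb G S x).card : ℚ) := by
  classical
  unfold dg nb
  rw [Finset.card_filter, Nat.cast_sum]
  refine Finset.sum_congr rfl fun y _ => ?_
  by_cases h : G.Adj x y
  · rw [A_one G h, if_pos h]; norm_num
  · rw [A_zero G h, if_neg h]; norm_num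

omit [Fintype V] in
/-- Case 2 -/
lemma case2 (G : SimpleGraph V) {S R : Finset V} (hT : Tight G S) {u v : V} (hu : u ∈ S)
    (hv : v ∈ S) (huR : u ∉ R) (hvR : v ∈ R) (hR : R ⊆ S)
    (hB : ∀ y ∈ S, G.Adj v y → y ∈ R) (hBB : ∀ y ∈ S, G.Adj v y → ∀ z ∈ S, G.Adj y z → z ∈ R)
    (hr : 2 * R.card ≤ S.card) : False := by
  have huv : u ≠ v := fun h => huR (h ▸ hvR)
  have hp : (0 : ℚ) < (S.card : ℚ) := by exact_mod_cast Finset.card_pos.2 ⟨u, hu⟩
  have hrp : (0 : ℚ) < (R.card : ℚ) := by exact_mod_cast Finset.card_pos.2 ⟨v, hvR⟩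
  have hE := E2_nonneg G S
  have h1 := vert G hT hv hu huv.symm
  have hbpos : 0 < dg G S v := by
    by_contra hcon
    push Not at hcon
    nlinarith
  have hne : (nb G S v).Nonempty := by
    rw [dg_eq] at hbpos
    exact Finset.card_pos.1 (by exact_mod_cast hbpos)
  obtain ⟨y, hy, hmin⟩ := Finset.exists_min_image (nb G S v) (fun y => dg G S y) hne
  obtain ⟨hyS, hvy⟩ := (mem_nb G).1 hy
  have hnR : nb G S v ⊆ R := fun z hz => hB z ((mem_nb G).1 hz).1 ((mem_nb G).1 hz).2
  have hdR : ∀ z ∈ nb G S v, dg G S z = ∑ w ∈ R, A G z w := by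
    intro z hz
    obtain ⟨hzS, hvz⟩ := (mem_nb G).1 hz
    unfold dg
    refine (Finset.sum_subset hR fun w hw hwR => ?_).symm
    exact A_zero G fun hadj => hwR (hBB z hzS hvz w hw hadj)
  have hbr : dg G S v ≤ (R.card : ℚ) := by
    rw [dg_eq]
    exact_mod_cast Finset.card_le_card hnR
  have hdr : dg G S y ≤ (R.card : ℚ) := by
    rw [hdR y hy]
    calc ∑ w ∈ R, A G y w ≤ ∑ w ∈ R, (1 : ℚ) := Finset.sum_le_sum fun w _ => A_le_one G y w
      _ = (R.card : ℚ) := by simp
  have hER : dg G S v * dg G S y ≤ E2 G R := by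
    have e1 : ∑ z ∈ nb G S v, dg G S z ≤ E2 G R := by
      unfold E2
      rw [Finset.sum_congr rfl hdR]
      exact Finset.sum_le_sum_of_subset_of_nonneg hnR
        fun z _ _ => Finset.sum_nonneg fun w _ => A_nonneg G z w
    have e2 : dg G S v * dg G S y ≤ ∑ z ∈ nb G S v, dg G S z := by
      rw [dg_eq G S v, ← nsmul_eq_mul]
      exact Finset.card_nsmul_le_sum _ _ _ hmin
    linarith
  have hzu : u ≠ y := fun h => huR (by rw [h]; exact hB y hyS hvy)
  have h2 := edge G hT hv hyS hu huv hzu hvy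
  have h3 := sub G hT hR ⟨v, hvR⟩ ⟨u, by simp [hu, huR]⟩
  have hr' : 2 * (R.card : ℚ) ≤ (S.card : ℚ) := by exact_mod_cast hr
  set p : ℚ := (S.card : ℚ)
  set r : ℚ := (R.card : ℚ)
  set b := dg G S v
  set d := dg G S y
  set E := E2 G S
  have k1 : 0 ≤ (r - b) * (r - d) := mul_nonneg (by linarith) (by linarith)
  have k2 : r * (b + d) - r ^ 2 ≤ b * d := by nlinarith
  have k3 : p * (r * (b + d) - r ^ 2) < r * E := by
    have : p * (r * (b + d) - r ^ 2) ≤ p * E2 G R :=
      mul_le_mul_of_nonneg_left (k2.trans hER) hp.le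
    linarith
  have k4 : r * (p * (b + d) - p * r) < r * E := by
    have : r * (p * (b + d) - p * r) = p * (r * (b + d) - r ^ 2) := by ring
    linarith
  have k5 : p * (b + d) - p * r < E := lt_of_mul_lt_mul_left k4 hrp.le
  nlinarith

end H59.CL
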