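import Pool.Agent.T6.H59.CL.Core

/-! MP_9c5a5c_co: the case of two vertices of small degree, and the far lemma. -/

set_option autoImplicit false

namespace H59.CL

open Finset R100DC

variable {V : Type} [Fintype V] [DecidableEq V]

lemma arith (p a b δ : ℚ) (hba : b ≤ a) (ha : 2 * a ≤ p + 2) (hc : 0 ≤ p - 2 - a - b)
    (hδ : δ < 2 * b) (h : a + b + a * (p / 2 + δ - a) + b * (p / 2 + δ - b) +
      (p - 2 - a - b) * (δ / 2) ≤ p * δ) : False := by
  have h1 : a * (p / 2 + 1 - a) + b * (p / 2 + 1 - b) ≤ (p + 2 - a - b) * (δ / 2) := by nlinarith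
  have h2 : (p + 2 - a - b) * (δ / 2) < (p + 2 - a - b) * b :=
    mul_lt_mul_of_pos_left (by linarith) (by linarith)
  have h3 : 0 ≤ (a - b) * (p / 2 + 1 - a) := mul_nonneg (by linarith) (by linarith)
  nlinarith

omit [Fintype V] in
/-- Case 1 -/
lemma case1 (G : SimpleGraph V) {S : Finset V} (hT : Tight G S) {u v : V} (hu : u ∈ S)
    (hv : v ∈ S) (huv : u ≠ v) (hadj : ¬ G.Adj u v)
    (hcom : ∀ w ∈ S, G.Adj u w → ¬ G.Adj w v)
    (hba : dg G S v ≤ dg G S u) (ha : 2 * dg G S u ≤ (S.card : ℚ) + 2) : False := by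
  have hp : (0 : ℚ) < (S.card : ℚ) := by exact_mod_cast Finset.card_pos.2 ⟨u, hu⟩
  have hE := E2_nonneg G S
  have h1 := vert G hT hv hu huv.symm
  -- the four classes
  have hsubU : ({u, v} : Finset V) ⊆ S := by
    intro w hw
    rw [Finset.mem_insert, Finset.mem_singleton] at hw
    rcases hw with rfl | rfl <;> assumption
  have hd1 : Disjoint ({u, v} : Finset V) (nb G S u ∪ nb G S v) := by
    rw [Finset.disjoint_left]
    intro w hw hw'
    rw [Finset.mem_insert, Finset.mem_singleton] at hw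
    rw [Finset.mem_union, mem_nb, mem_nb] at hw'
    rcases hw with rfl | rfl
    · rcases hw' with h | h
      · exact G.loopless.irrefl _ h.2
      · exact hadj h.2.symm
    · rcases hw' with h | h
      · exact hadj h.2
      · exact G.loopless.irrefl _ h.2
  have hd2 : Disjoint (nb G S u) (nb G S v) := by
    rw [Finset.disjoint_left]
    intro w hw hw'
    exact hcom w ((mem_nb G).1 hw).1 ((mem_nb G).1 hw).2 ((mem_nb G).1 hw').2.symm
  set U : Finset V := {u, v} ∪ (nb G S u ∪ nb G S v) with hU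
  have hUS : U ⊆ S := by
    refine Finset.union_subset hsubU (Finset.union_subset ?_ ?_)
    · exact fun w hw => ((mem_nb G).1 hw).1
    · exact fun w hw => ((mem_nb G).1 hw).1
  have hsum : E2 G S = (dg G S u + dg G S v) + (∑ x ∈ nb G S u, dg G S x +
      ∑ x ∈ nb G S v, dg G S x) + ∑ x ∈ S \ U, dg G S x := by
    have e0 : E2 G S = ∑ x ∈ S, dg G S x := rfl
    rw [e0, ← Finset.sum_sdiff hUS, add_comm (∑ x ∈ S \ U, dg G S x), hU,
      Finset.sum_union hd1, Finset.sum_union hd2, Finset.sum_pair huv]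
  have hcard : ((S \ U).card : ℚ) = (S.card : ℚ) - 2 - dg G S u - dg G S v := by
    rw [Finset.cast_card_sdiff hUS, hU, Finset.card_union_of_disjoint hd1,
      Finset.card_union_of_disjoint hd2, Finset.card_pair huv, dg_eq, dg_eq]
    push_cast
    ring
  have hE1 : ∀ x ∈ nb G S u, (S.card : ℚ) / 2 + E2 G S / (S.card : ℚ) - dg G S u ≤ dg G S x := by
    intro x hx
    obtain ⟨hxS, hux⟩ := (mem_nb G).1 hx
    have hxv : v ≠ x := fun h => hadj (h ▸ hux)
    have h := edge G hT hu hxS hv huv.symm hxv hux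
    have e : (S.card : ℚ) / 2 + E2 G S / (S.card : ℚ) =
        ((S.card : ℚ) ^ 2 + 2 * E2 G S) / (2 * (S.card : ℚ)) := by field_simp
    rw [sub_le_iff_le_add, e, div_le_iff₀ (by linarith)]
    nlinarith
  have hE2 : ∀ x ∈ nb G S v, (S.card : ℚ) / 2 + E2 G S / (S.card : ℚ) - dg G S v ≤ dg G S x := by
    intro x hx
    obtain ⟨hxS, hvx⟩ := (mem_nb G).1 hx
    have hxu : u ≠ x := fun h => hadj (h ▸ hvx.symm)
    have h := edge G hT hv hxS hu huv hxu hvx
    have e : (S.card : ℚ) / 2 + E2 G S / (S.card : ℚ) =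
        ((S.card : ℚ) ^ 2 + 2 * E2 G S) / (2 * (S.card : ℚ)) := by field_simp
    rw [sub_le_iff_le_add, e, div_le_iff₀ (by linarith)]
    nlinarith
  have hE3 : ∀ x ∈ S \ U, E2 G S / (S.card : ℚ) / 2 ≤ dg G S x := by
    intro x hx
    rw [Finset.mem_sdiff] at hx
    have hxu : x ≠ u := by
      rintro rfl
      exact hx.2 (by rw [hU]; simp)
    have h := vert G hT hx.1 hu hxu
    rw [div_div, div_le_iff₀ (by linarith)]
    nlinarith
  have s1 : dg G S u * ((S.card : ℚ) / 2 + E2 G S / (S.card : ℚ) - dg G S u) ≤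
      ∑ x ∈ nb G S u, dg G S x := by
    have := Finset.card_nsmul_le_sum (nb G S u) (fun x => dg G S x) _ hE1
    rwa [nsmul_eq_mul, ← dg_eq] at this
  have s2 : dg G S v * ((S.card : ℚ) / 2 + E2 G S / (S.card : ℚ) - dg G S v) ≤
      ∑ x ∈ nb G S v, dg G S x := by
    have := Finset.card_nsmul_le_sum (nb G S v) (fun x => dg G S x) _ hE2
    rwa [nsmul_eq_mul, ← dg_eq] at this
  have s3 : ((S.card : ℚ) - 2 - dg G S u - dg G S v) * (E2 G S / (S.card : ℚ) / 2) ≤
      ∑ x ∈ S \ U, dg G S x := by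
    have := Finset.card_nsmul_le_sum (S \ U) (fun x => dg G S x) _ hE3
    rwa [nsmul_eq_mul, hcard] at this
  have hc : 0 ≤ (S.card : ℚ) - 2 - dg G S u - dg G S v := by
    rw [← hcard]; exact Nat.cast_nonneg _
  have hδ : E2 G S / (S.card : ℚ) < 2 * dg G S v := by
    rw [div_lt_iff₀ hp]
    nlinarith
  refine arith (S.card : ℚ) (dg G S u) (dg G S v) (E2 G S / (S.card : ℚ)) hba ha hc hδ ?_
  have e : (S.card : ℚ) * (E2 G S / (S.card : ℚ)) = E2 G S := by field_simp
  rw [e]
  linarith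

omit [Fintype V] in
/-- two vertices at distance at least three: one has large degree -/
lemma large (G : SimpleGraph V) {S : Finset V} (hT : Tight G S) {u v : V} (hu : u ∈ S)
    (hv : v ∈ S) (huv : u ≠ v) (hadj : ¬ G.Adj u v)
    (hcom : ∀ w ∈ S, G.Adj u w → ¬ G.Adj w v) :
    (S.card : ℚ) + 2 < 2 * dg G S u ∨ (S.card : ℚ) + 2 < 2 * dg G S v := by
  by_contra hcon
  push Not at hcon
  rcases le_total (dg G S v) (dg G S u) with h | h
  · exact case1 G hT hu hv huv hadj hcom h hcon.1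
  · exact case1 G hT hv hu huv.symm (fun h' => hadj h'.symm)
      (fun w hw h1 h2 => hcom w hw h2.symm h1.symm) h hcon.2

omit [Fintype V] in
/-- the half of the far lemma -/
lemma half (G : SimpleGraph V) {S : Finset V} (hT : Tight G S) {u v : V} (hu : u ∈ S)
    (hv : v ∈ S) (huv : u ≠ v) (hadj : ¬ G.Adj u v)
    (hcom : ∀ w ∈ S, G.Adj u w → ¬ G.Adj w v)
    (hfar : ∀ x ∈ S, ∀ y ∈ S, G.Adj u x → G.Adj x y → ¬ G.Adj y v) :
    2 * dg G S u + 2 < (S.card : ℚ) := by
  by_contra hcon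
  push Not at hcon
  have hun : u ∉ nb G S u := fun h => G.loopless.irrefl _ ((mem_nb G).1 h).2
  have hsub : insert u (nb G S u) ⊆ S := by
    intro w hw
    rw [Finset.mem_insert] at hw
    rcases hw with rfl | hw
    · exact hu
    · exact ((mem_nb G).1 hw).1
  refine case2 G hT (R := S \ insert u (nb G S u)) hu hv ?_ ?_ Finset.sdiff_subset ?_ ?_ ?_
  · simp
  · rw [Finset.mem_sdiff, Finset.mem_insert, mem_nb]
    refine ⟨hv, ?_⟩
    rintro (h | h)
    · exact huv h.symm
    · exact hadj h.2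
  · intro y hy hvy
    rw [Finset.mem_sdiff, Finset.mem_insert, mem_nb]
    refine ⟨hy, ?_⟩
    rintro (h | h)
    · exact hadj (h ▸ hvy.symm)
    · exact hcom y hy h.2 hvy.symm
  · intro y hy hvy z hz hyz
    rw [Finset.mem_sdiff, Finset.mem_insert, mem_nb]
    refine ⟨hz, ?_⟩
    rintro (h | h)
    · exact hcom y hy (h ▸ hyz.symm) hvy.symm
    · exact hfar z hz y hy h.2 hyz.symm hvy.symm
  · have h1 : (insert u (nb G S u)).card = (nb G S u).card + 1 := Finset.card_insert_of_notMem hun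
    have h2 : (((S \ insert u (nb G S u)).card : ℕ) : ℚ) = (S.card : ℚ) - (dg G S u + 1) := by
      rw [Finset.cast_card_sdiff hsub, h1, dg_eq]
      push_cast
      ring
    have h3 : (2 : ℚ) * (((S \ insert u (nb G S u)).card : ℕ) : ℚ) ≤ (S.card : ℚ) := by
      rw [h2]; linarith
    exact_mod_cast h3

omit [Fintype V] in
/-- no two vertices of a tight set are at distance at least four -/
lemma far (G : SimpleGraph V) {S : Finset V} (hT : Tight G S) {u v : V} (hu : u ∈ S)
    (hv : v ∈ S) (huv : u ≠ v) (hadj : ¬ G.Adj u v)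
    (hcom : ∀ w ∈ S, G.Adj u w → ¬ G.Adj w v)
    (hfar : ∀ x ∈ S, ∀ y ∈ S, G.Adj u x → G.Adj x y → ¬ G.Adj y v) : False := by
  have h1 := half G hT hu hv huv hadj hcom hfar
  have h2 := half G hT hv hu huv.symm (fun h' => hadj h'.symm)
    (fun w hw h1 h2 => hcom w hw h2.symm h1.symm)
    (fun x hx y hy h1 h2 h3 => hfar y hy x hx h3.symm h2.symm h1.symm)
  rcases large G hT hu hv huv hadj hcom with h | h <;> linarith

end H59.CL
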