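import Pool.Agent.T6.H59.CL.Core2

/-! MP_9c5a5c_co: connectedness, distances, and the optimal partition. -/

set_option autoImplicit false

namespace H59.CL

open Finset R100DC

variable {V : Type} [Fintype V] [DecidableEq V]

omit [Fintype V] in
lemma conn (G : SimpleGraph V) {S : Finset V} (hS : S.Nonempty) (hT : Tight G S) :
    (G.induce (S : Set V)).Connected := by
  classical
  have hne : Nonempty (S : Set V) := ⟨⟨hS.choose, hS.choose_spec⟩⟩
  refine ⟨?_⟩
  intro x y
  by_contra hxy
  set X : Finset V := S.filter (fun z => ∃ h : z ∈ (S : Set V),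
    (G.induce (S : Set V)).Reachable x ⟨z, h⟩) with hX
  have hXS : X ⊆ S := Finset.filter_subset _ _
  have hxX : x.1 ∈ X := by
    rw [hX, Finset.mem_filter]
    exact ⟨x.2, x.2, SimpleGraph.Reachable.refl x⟩
  have hyX : y.1 ∈ S \ X := by
    rw [Finset.mem_sdiff, hX, Finset.mem_filter]
    refine ⟨y.2, ?_⟩
    rintro ⟨_, h, h'⟩
    exact hxy h'
  have hD : DD G X (S \ X) = 0 := by
    unfold DD
    refine Finset.sum_eq_zero fun a ha => Finset.sum_eq_zero fun b hb => ?_
    refine A_zero G fun hab => ?_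
    rw [Finset.mem_sdiff] at hb
    apply hb.2
    rw [hX, Finset.mem_filter] at ha ⊢
    obtain ⟨haS, haS', hr⟩ := ha
    refine ⟨hb.1, hb.1, hr.trans ?_⟩
    have : (G.induce (S : Set V)).Adj ⟨a, haS'⟩ ⟨b, hb.1⟩ := hab
    exact this.reachable
  have hu : X ∪ S \ X = S := Finset.union_sdiff_of_subset hXS
  have h1 := hT X (S \ X) ⟨x.1, hxX⟩ ⟨y.1, hyX⟩ Finset.disjoint_sdiff hu
  have h2 := E2_union G (X := X) (Y := S \ X) Finset.disjoint_sdiff
  rw [hu, hD, mul_zero, add_zero] at h2
  have c1 : (0 : ℚ) < (X.card : ℚ) := by exact_mod_cast Finset.card_pos.2 ⟨x.1, hxX⟩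
  have c2 : (0 : ℚ) < ((S \ X).card : ℚ) := by exact_mod_cast Finset.card_pos.2 ⟨y.1, hyX⟩
  have c3 : (X.card : ℚ) ≤ (S.card : ℚ) := by exact_mod_cast Finset.card_le_card hXS
  have c4 : ((S \ X).card : ℚ) ≤ (S.card : ℚ) := by
    exact_mod_cast Finset.card_le_card Finset.sdiff_subset
  have d1 : E2 G X / (S.card : ℚ) ≤ E2 G X / (X.card : ℚ) :=
    div_le_div_of_nonneg_left (E2_nonneg G X) c1 c3
  have d2 : E2 G (S \ X) / (S.card : ℚ) ≤ E2 G (S \ X) / ((S \ X).card : ℚ) :=
    div_le_div_of_nonneg_left (E2_nonneg G _) c2 c4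
  rw [h2, add_div] at h1
  linarith

/-- the number of neighbours of `x` inside `S` -/
noncomputable def degIn (G : SimpleGraph V) (S : Finset V) (x : V) : ℕ :=
  {y : V | y ∈ S ∧ G.Adj x y}.ncard

omit [Fintype V] [DecidableEq V] in
lemma degIn_eq (G : SimpleGraph V) (S : Finset V) (x : V) : (degIn G S x : ℚ) = dg G S x := by
  classical
  rw [dg_eq]
  unfold degIn
  have : {y : V | y ∈ S ∧ G.Adj x y} = ((nb G S x : Finset V) : Set V) := by
    ext y
    rw [Finset.mem_coe, mem_nb]
    rfl
  rw [this, Set.ncard_coe_finset]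

omit [Fintype V] in
lemma facts (G : SimpleGraph V) {S : Finset V} (x y : (S : Set V))
    (h : 3 ≤ (G.induce (S : Set V)).dist x y) :
    x.1 ≠ y.1 ∧ ¬ G.Adj x.1 y.1 ∧ (∀ w ∈ S, G.Adj x.1 w → ¬ G.Adj w y.1) := by
  refine ⟨?_, ?_, ?_⟩
  · intro e
    have e' : x = y := Subtype.ext e
    rw [e', SimpleGraph.dist_self] at h
    omega
  · intro e
    have e' : (G.induce (S : Set V)).Adj x y := e
    have := SimpleGraph.dist_le (SimpleGraph.Walk.cons e' SimpleGraph.Walk.nil)
    simp at this
    omega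
  · intro w hw h1 h2
    have e1 : (G.induce (S : Set V)).Adj x ⟨w, hw⟩ := h1
    have e2 : (G.induce (S : Set V)).Adj ⟨w, hw⟩ y := h2
    have := SimpleGraph.dist_le
      (SimpleGraph.Walk.cons e1 (SimpleGraph.Walk.cons e2 SimpleGraph.Walk.nil))
    simp at this
    omega

omit [Fintype V] in
lemma dist_le_three (G : SimpleGraph V) {S : Finset V} (hT : Tight G S) (x y : (S : Set V)) :
    (G.induce (S : Set V)).dist x y ≤ 3 := by
  by_contra hcon
  push Not at hcon
  obtain ⟨h1, h2, h3⟩ := facts G x y (by omega)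
  refine far G hT x.2 y.2 h1 h2 h3 ?_
  intro a ha b hb e1 e2 e3
  have f1 : (G.induce (S : Set V)).Adj x ⟨a, ha⟩ := e1
  have f2 : (G.induce (S : Set V)).Adj ⟨a, ha⟩ ⟨b, hb⟩ := e2
  have f3 : (G.induce (S : Set V)).Adj ⟨b, hb⟩ y := e3
  have := SimpleGraph.dist_le
    (SimpleGraph.Walk.cons f1 (SimpleGraph.Walk.cons f2 (SimpleGraph.Walk.cons f3
      SimpleGraph.Walk.nil)))
  simp at this
  omega

omit [Fintype V] in
lemma large_deg (G : SimpleGraph V) {S : Finset V} (hT : Tight G S) (x y : (S : Set V))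
    (h : 3 ≤ (G.induce (S : Set V)).dist x y) :
    S.card + 2 < 2 * max (degIn G S x.1) (degIn G S y.1) := by
  obtain ⟨h1, h2, h3⟩ := facts G x y h
  have h4 := large G hT x.2 y.2 h1 h2 h3
  rw [← degIn_eq, ← degIn_eq] at h4
  have h5 : S.card + 2 < 2 * degIn G S x.1 ∨ S.card + 2 < 2 * degIn G S y.1 := by
    rcases h4 with h | h
    · left; exact_mod_cast h
    · right; exact_mod_cast h
  rcases h5 with h | h
  · exact lt_of_lt_of_le h (Nat.mul_le_mul_left 2 (le_max_left _ _))
  · exact lt_of_lt_of_le h (Nat.mul_le_mul_left 2 (le_max_right _ _))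

/-- an optimal partition with the largest number of parts has only tight parts -/
lemma tight_of_max (G : SimpleGraph V) (P : Finpartition (univ : Finset V)) (hP : Optimal G P)
    (hmax : ∀ P' : Finpartition (univ : Finset V), Optimal G P' → P'.parts.card ≤ P.parts.card)
    {S : Finset V} (hS : S ∈ P.parts) : Tight G S := by
  intro B C hB hC hBC hu
  by_contra hcon
  push Not at hcon
  obtain ⟨P', hc, hd⟩ := F.main G P hS hB hC hBC hu
  rw [F1.edgesIn_eq, F1.edgesIn_eq, F1.edgesIn_eq] at hd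
  have e : ∀ a b : ℚ, a / 2 / b = a / b / 2 := fun a b => by rw [div_right_comm]
  rw [e, e, e] at hd
  have h1 := hP P'
  have h2 : density G P' = density G P := by linarith
  have h3 : Optimal G P' := fun P'' => by rw [h2]; exact hP P''
  have h4 := hmax P' h3
  omega

lemma exists_max_opt (G : SimpleGraph V) : ∃ P : Finpartition (univ : Finset V), Optimal G P ∧
    ∀ P' : Finpartition (univ : Finset V), Optimal G P' → P'.parts.card ≤ P.parts.card := by
  classical
  have hfin : Finite (Finpartition (univ : Finset V)) := by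
    refine Finite.of_injective (fun P => P.parts) ?_
    intro P P' h
    exact Finpartition.ext h
  have := Fintype.ofFinite (Finpartition (univ : Finset V))
  have : Nonempty (Finpartition (univ : Finset V)) := ⟨⊥⟩
  obtain ⟨P0, hP0⟩ := Finite.exists_max (fun P : Finpartition (univ : Finset V) => density G P)
  obtain ⟨P, hP, hPmax⟩ := Finset.exists_max_image
    (Finset.univ.filter (fun P : Finpartition (univ : Finset V) => Optimal G P))
    (fun P => P.parts.card) ⟨P0, Finset.mem_filter.mpr ⟨Finset.mem_univ _, hP0⟩⟩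
  have hP' : Optimal G P := (Finset.mem_filter.mp hP).2
  refine ⟨P, hP', ?_⟩
  intro P' h
  exact hPmax P' (Finset.mem_filter.mpr ⟨Finset.mem_univ _, h⟩)

end H59.CL
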